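import Pool.Agent.Y755.MK.Stm

/-! Project MK: the squares of the operators are zero; the measure has no atoms. -/

set_option autoImplicit false
set_option maxRecDepth 100000
set_option maxHeartbeats 4000000

open MeasureTheory ProbabilityTheory
open scoped Classical

namespace Pool.Agent.Y47.MK.AN
open Pool.Agent.Y755.MK

/-- flipping the digits in `m` -/
def fl (m : ℕ → Bool) (y : Y) : Y := fun n => xor (y n) (m n)

theorem fl_meas (m : ℕ → Bool) : Measurable (fl m) := by
  refine measurable_pi_iff.2 fun i => ?_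
  have : Measurable (fun b : Bool => xor b (m i)) := Measurable.of_discrete
  exact this.comp (measurable_pi_apply i)

theorem unif (b : Bool) : (PMF.uniformOfFintype Bool).toMeasure {b} = 2⁻¹ := by
  rw [PMF.toMeasure_apply_singleton _ _ (measurableSet_singleton b)]
  simp [PMF.uniformOfFintype_apply]

theorem fl_map (m : ℕ → Bool) : mY.map (fl m) = mY := by
  have hm : ∀ i : ℕ, Measurable (fun b : Bool => xor b (m i)) := fun i => Measurable.of_discrete
  have h1 := Measure.infinitePi_map_pi (fun _ : ℕ => (PMF.uniformOfFintype Bool).toMeasure) hm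
  have h2 : ∀ i : ℕ, ((PMF.uniformOfFintype Bool).toMeasure).map (fun b : Bool => xor b (m i)) =
      (PMF.uniformOfFintype Bool).toMeasure := by
    intro i
    refine Measure.ext_of_singleton fun b => ?_
    rw [Measure.map_apply (hm i) (measurableSet_singleton b), unif]
    have h3 : (fun b : Bool => xor b (m i)) ⁻¹' {b} = {xor b (m i)} := by
      ext x
      simp only [Set.mem_preimage, Set.mem_singleton_iff]
      cases x <;> cases b <;> cases m i <;> simp
    rw [h3, unif]
  unfold mY
  have h3 : (fun (x : ℕ → Bool) i => xor (x i) (m i)) = fl m := rfl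
  rw [h3] at h1
  rw [h1]
  congr 1
  funext i
  exact h2 i

/-- an odd function has integral zero -/
theorem int_odd (m : ℕ → Bool) {F : Y → ℝ} (hF : Measurable F) (h : ∀ z, F (fl m z) = - F z) :
    ∫ z, F z ∂mY = 0 := by
  have h1 : ∫ z, F z ∂(mY.map (fl m)) = ∫ z, F (fl m z) ∂mY :=
    integral_map (fl_meas m).aemeasurable hF.aestronglyMeasurable
  rw [fl_map] at h1
  simp only [h, integral_neg] at h1
  linarith

/-- a term of the kernel -/
noncomputable def T (l : Fin 4) (k : ℕ) (y z : Y) : ℝ := if ∀ i < 2 * k, y i = z i then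
  uu l (y (2 * k)) (y (2 * k + 1)) * vv l (z (2 * k)) (z (2 * k + 1)) else 0

theorem ae_eq (l : Fin 4) (y z : Y) : ae l y z = ∑' k, T l k y z := rfl

theorem vu (l : Fin 4) (s t : Bool) : vv l s t * uu l s t = 0 := by
  unfold uu vv
  by_cases h : bl l s t = true <;> simp [h]

theorem uu_le (l : Fin 4) (s t : Bool) : |uu l s t| ≤ 1 := by
  unfold uu sgn
  split_ifs <;> simp

theorem vv_le (l : Fin 4) (s t : Bool) : |vv l s t| ≤ 1 := by
  unfold vv sgn
  split_ifs <;> simp

theorem T_le (l : Fin 4) (k : ℕ) (y z : Y) : |T l k y z| ≤ 1 := by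
  unfold T
  split_ifs
  · rw [abs_mul]
    calc _ ≤ (1 : ℝ) * 1 := mul_le_mul (uu_le _ _ _) (vv_le _ _ _) (abs_nonneg _) zero_le_one
      _ = 1 := one_mul 1
  · simp

theorem T_lt {l : Fin 4} {j k : ℕ} {y z : Y} (h : j < k) (hj : T l j y z ≠ 0)
    (hk : T l k y z ≠ 0) : False := by
  unfold T at hk hj
  by_cases h1 : ∀ i < 2 * k, y i = z i
  · rw [h1 (2 * j) (by omega), h1 (2 * j + 1) (by omega)] at hj
    by_cases h2 : ∀ i < 2 * j, y i = z i
    · rw [if_pos h2, mul_comm, vu] at hj
      exact hj rfl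
    · rw [if_neg h2] at hj
      exact hj rfl
  · rw [if_neg h1] at hk
    exact hk rfl

theorem T_one {l : Fin 4} {j k : ℕ} {y z : Y} (hj : T l j y z ≠ 0) (hk : T l k y z ≠ 0) :
    j = k := by
  rcases lt_trichotomy j k with h | h | h
  · exact (T_lt h hj hk).elim
  · exact h
  · exact (T_lt h hk hj).elim

theorem T_sum (l : Fin 4) (y z : Y) : Summable fun k => T l k y z := by
  refine summable_of_hasFiniteSupport ?_
  refine Set.Subsingleton.finite ?_
  intro j hj k hk
  exact T_one hj hk

/-- the digits which are flipped in the block `k` -/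
def mk (l : Fin 4) (k : ℕ) : ℕ → Bool := fun n =>
  decide (n = 2 * k) || (decide (n = 2 * k + 1) && (decide (l = 2) || decide (l = 3)))

theorem mk_ne (l : Fin 4) {k n : ℕ} (h1 : n ≠ 2 * k) (h2 : n ≠ 2 * k + 1) : mk l k n = false := by
  simp [mk, h1, h2]

theorem fl_ne (l : Fin 4) {k n : ℕ} (y : Y) (h1 : n ≠ 2 * k) (h2 : n ≠ 2 * k + 1) :
    fl (mk l k) y n = y n := by
  simp [fl, mk_ne l h1 h2]

theorem mk0 (l : Fin 4) (k : ℕ) : mk l k (2 * k) = true := by
  simp [mk]

theorem mk1 (l : Fin 4) (k : ℕ) : mk l k (2 * k + 1) = (decide (l = 2) || decide (l = 3)) := by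
  simp [mk]

theorem bl_fl : ∀ (l : Fin 4) (s t : Bool),
    bl l (xor s true) (xor t (decide (l = 2) || decide (l = 3))) = bl l s t := by
  decide

theorem sgn_fl (s : Bool) : sgn (xor s true) = - sgn s := by
  cases s <;> simp [sgn]

theorem uu_fl (l : Fin 4) (k : ℕ) (y : Y) :
    uu l (fl (mk l k) y (2 * k)) (fl (mk l k) y (2 * k + 1)) = - uu l (y (2 * k)) (y (2 * k + 1)) := by
  unfold uu fl
  rw [mk0, mk1, bl_fl, sgn_fl]
  split_ifs <;> simp

theorem vv_fl (l : Fin 4) (k : ℕ) (y : Y) :
    vv l (fl (mk l k) y (2 * k)) (fl (mk l k) y (2 * k + 1)) = - vv l (y (2 * k)) (y (2 * k + 1)) := by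
  unfold vv fl
  rw [mk0, mk1, bl_fl, sgn_fl]
  split_ifs <;> simp

theorem T_fl_left (l : Fin 4) (k : ℕ) (z w : Y) : T l k (fl (mk l k) z) w = - T l k z w := by
  unfold T
  have h : (∀ i < 2 * k, fl (mk l k) z i = w i) ↔ ∀ i < 2 * k, z i = w i := by
    refine forall₂_congr fun i hi => ?_
    rw [fl_ne l z (by omega) (by omega)]
  simp only [h, uu_fl]
  split_ifs <;> simp

theorem T_fl_right (l : Fin 4) (k : ℕ) (y z : Y) : T l k y (fl (mk l k) z) = - T l k y z := by
  unfold T
  have h : (∀ i < 2 * k, y i = fl (mk l k) z i) ↔ ∀ i < 2 * k, y i = z i := by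
    refine forall₂_congr fun i hi => ?_
    rw [fl_ne l z (by omega) (by omega)]
  simp only [h, vv_fl]
  split_ifs <;> simp

theorem T_ne_left (l : Fin 4) {j k : ℕ} (hjk : j < k) (z w : Y) :
    T l j (fl (mk l k) z) w = T l j z w := by
  unfold T
  have h : (∀ i < 2 * j, fl (mk l k) z i = w i) ↔ ∀ i < 2 * j, z i = w i := by
    refine forall₂_congr fun i hi => ?_
    rw [fl_ne l z (by omega) (by omega)]
  rw [fl_ne l z (n := 2 * j) (by omega) (by omega), fl_ne l z (n := 2 * j + 1) (by omega) (by omega)]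
  simp only [h]

theorem T_ne_right (l : Fin 4) {j k : ℕ} (hjk : j < k) (y z : Y) :
    T l j y (fl (mk l k) z) = T l j y z := by
  unfold T
  have h : (∀ i < 2 * j, y i = fl (mk l k) z i) ↔ ∀ i < 2 * j, y i = z i := by
    refine forall₂_congr fun i hi => ?_
    rw [fl_ne l z (by omega) (by omega)]
  rw [fl_ne l z (n := 2 * j) (by omega) (by omega), fl_ne l z (n := 2 * j + 1) (by omega) (by omega)]
  simp only [h]

theorem vu_zero (l : Fin 4) (k : ℕ) (y z w : Y) : T l k y z * T l k z w = 0 := by
  unfold T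
  split_ifs
  · have := vu l (z (2 * k)) (z (2 * k + 1))
    calc _ = uu l (y (2 * k)) (y (2 * k + 1)) * (vv l (z (2 * k)) (z (2 * k + 1)) *
          uu l (z (2 * k)) (z (2 * k + 1))) * vv l (w (2 * k)) (w (2 * k + 1)) := by ring
      _ = 0 := by rw [this]; ring
  all_goals simp

theorem meas2 (f : Bool → Bool → ℝ) (a b : ℕ) : Measurable fun z : Y => f (z a) (z b) := by
  have h : Measurable (fun p : Bool × Bool => f p.1 p.2) := measurable_of_countable _
  have ha : Measurable fun z : Y => z a := measurable_pi_apply a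
  have hb : Measurable fun z : Y => z b := measurable_pi_apply b
  exact h.comp (ha.prodMk hb)

theorem measS (y : Y) (n : ℕ) : MeasurableSet {z : Y | ∀ i < n, y i = z i} := by
  have : {z : Y | ∀ i < n, y i = z i} = ⋂ i : ℕ, ⋂ _ : i < n, {z : Y | z i = y i} := by
    ext z
    simp only [Set.mem_ofPred_eq, Set.mem_iInter]
    exact forall₂_congr fun i _ => eq_comm
  rw [this]
  refine MeasurableSet.iInter fun i => MeasurableSet.iInter fun _ => ?_
  have hi : Measurable fun z : Y => z i := measurable_pi_apply i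
  exact hi (measurableSet_singleton (y i))

theorem T_meas_right (l : Fin 4) (k : ℕ) (y : Y) : Measurable fun z => T l k y z := by
  unfold T
  refine Measurable.ite (measS y (2 * k)) ?_ measurable_const
  exact measurable_const.mul (meas2 (vv l) (2 * k) (2 * k + 1))

theorem T_meas_left (l : Fin 4) (k : ℕ) (w : Y) : Measurable fun z => T l k z w := by
  unfold T
  refine Measurable.ite ?_ ?_ measurable_const
  · have : {z : Y | ∀ i < 2 * k, z i = w i} = {z : Y | ∀ i < 2 * k, w i = z i} := by
      ext z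
      simp only [Set.mem_ofPred_eq]
      exact forall₂_congr fun i _ => eq_comm
    rw [this]
    exact measS w (2 * k)
  · exact (meas2 (uu l) (2 * k) (2 * k + 1)).mul measurable_const

/-- integration of a series with at most one term different from zero -/
theorem int_series {ι : Type} [Countable ι] {f : ι → Y → ℝ} (hf : ∀ k, Measurable (f k))
    (hb : ∀ k z, |f k z| ≤ 1) (h1 : ∀ z j k, f j z ≠ 0 → f k z ≠ 0 → j = k)
    (h0 : ∀ k, ∫ z, f k z ∂mY = 0) : ∫ z, ∑' k, f k z ∂mY = 0 := by
  rw [integral_tsum (fun k => (hf k).aestronglyMeasurable)]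
  · simp [h0]
  · rw [← lintegral_tsum (fun k => (hf k).aestronglyMeasurable.enorm)]
    refine ne_of_lt (lt_of_le_of_lt (b := ∫⁻ _ : Y, (1 : ENNReal) ∂mY) ?_ ?_)
    · refine lintegral_mono fun z => ?_
      by_cases hz : ∃ k, f k z ≠ 0
      · obtain ⟨k, hk⟩ := hz
        rw [tsum_eq_single k]
        · rw [Real.enorm_eq_ofReal_abs]
          exact ENNReal.ofReal_le_one.2 (hb k z)
        · intro j hj
          have : f j z = 0 := by
            by_contra h
            exact hj (h1 z j k h hk)
          rw [this, enorm_zero]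
      · push Not at hz
        simp [hz]
    · simp

theorem pair (l : Fin 4) (c : Y → Y) (hc : Measurable c)
    (hfl : ∀ k, 1 ≤ k → ∃ m, ∀ z, c (fl m z) = fl (mk l k) (c z)) (y w : Y) :
    ∫ z, ae l y (c z) * ae l (c z) w ∂mY = 0 := by
  have e : ∀ z, ae l y (c z) * ae l (c z) w =
      ∑' p : ℕ × ℕ, T l p.1 y (c z) * T l p.2 (c z) w := by
    intro z
    rw [ae_eq, ae_eq]
    refine Summable.tsum_mul_tsum (T_sum l y (c z)) (T_sum l (c z) w) ?_
    refine summable_of_hasFiniteSupport (Set.Subsingleton.finite ?_)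
    intro p hp q hq
    exact Prod.ext (T_one (left_ne_zero_of_mul hp) (left_ne_zero_of_mul hq))
      (T_one (right_ne_zero_of_mul hp) (right_ne_zero_of_mul hq))
  simp only [e]
  have hm : ∀ p : ℕ × ℕ, Measurable fun z => T l p.1 y (c z) * T l p.2 (c z) w := fun p =>
    ((T_meas_right l p.1 y).comp hc).mul ((T_meas_left l p.2 w).comp hc)
  refine int_series hm ?_ ?_ ?_
  · intro p z
    rw [abs_mul]
    calc _ ≤ (1 : ℝ) * 1 := mul_le_mul (T_le _ _ _ _) (T_le _ _ _ _) (abs_nonneg _) zero_le_one
      _ = 1 := one_mul 1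
  · intro z p q hp hq
    exact Prod.ext (T_one (left_ne_zero_of_mul hp) (left_ne_zero_of_mul hq))
      (T_one (right_ne_zero_of_mul hp) (right_ne_zero_of_mul hq))
  · rintro ⟨j, k⟩
    rcases lt_trichotomy j k with h | h | h
    · obtain ⟨m, hm'⟩ := hfl k (by omega)
      refine int_odd m (hm (j, k)) fun z => ?_
      simp only [hm' z]
      rw [T_fl_left, T_ne_right l h]
      ring
    · subst h
      simp only [vu_zero, integral_zero]
    · obtain ⟨m, hm'⟩ := hfl j (by omega)
      refine int_odd m (hm (j, k)) fun z => ?_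
      simp only [hm' z]
      rw [T_fl_right, T_ne_left l h]
      ring

theorem cons0_meas : Measurable cons0 := by
  refine measurable_pi_iff.2 fun n => ?_
  unfold cons0
  by_cases h : n = 0
  · simp only [h, if_true]
    exact measurable_const
  · simp only [h, if_false]
    exact measurable_pi_apply _

theorem cons0_fl (l : Fin 4) {k : ℕ} (hk : 1 ≤ k) (z : Y) :
    cons0 (fl (fun n => mk l k (n + 1)) z) = fl (mk l k) (cons0 z) := by
  funext n
  by_cases h : n = 0
  · subst h
    simp [cons0, fl, mk_ne l (k := k) (n := 0) (by omega) (by omega)]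
  · have : n - 1 + 1 = n := by omega
    simp [cons0, fl, h, this]

theorem t_AN : S_AN := by
  intro i y w
  unfold aa
  by_cases h : i.1 < 4
  · simp only [if_pos h]
    exact pair _ (fun z => z) measurable_id (fun k _ => ⟨mk _ k, fun z => rfl⟩) y w
  · simp only [if_neg h]
    exact pair _ cons0 cons0_meas (fun k hk => ⟨_, cons0_fl _ hk⟩) (cons0 y) (cons0 w)

theorem t_NA : S_NA := by
  intro y
  have h1 : ∀ n : ℕ, mY {y} ≤ (2⁻¹ : ENNReal) ^ n := by
    intro n
    calc mY {y} ≤ mY (Set.pi (Finset.range n : Set ℕ) fun i => {y i}) := by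
          refine measure_mono ?_
          intro z hz i _
          rw [Set.mem_singleton_iff] at hz ⊢
          rw [hz]
      _ = ∏ i ∈ Finset.range n, (PMF.uniformOfFintype Bool).toMeasure {y i} := by
          unfold mY
          rw [Measure.infinitePi_pi _ (fun i _ => measurableSet_singleton _)]
      _ = (2⁻¹ : ENNReal) ^ n := by
          simp only [unif, Finset.prod_const, Finset.card_range]
  have h2 : Filter.Tendsto (fun n : ℕ => (2⁻¹ : ENNReal) ^ n) Filter.atTop (nhds 0) :=
    ENNReal.tendsto_pow_atTop_nhds_zero_of_lt_one (ENNReal.inv_lt_one.2 (by norm_num))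
  exact le_antisymm (ge_of_tendsto' h2 h1) bot_le

end Pool.Agent.Y47.MK.AN
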