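import Pool.Agent.Y755.MK.Stm

/-! Project MK: the affine plane over the field with seven elements. -/

set_option autoImplicit false
set_option maxRecDepth 100000
set_option maxHeartbeats 4000000

open Pool.Agent.Y755.MK

namespace Pool.Agent.Y47.MK.CC

theorem c1 : ∀ c d : C, c ≠ d → ∃ i : Fin 8, Lf i c = Lf i d ∧ ∀ j : Fin 8, Lf j c = Lf j d → j = i := by
  decide +kernel

theorem t_CC : S_CC := by
  refine ⟨fun c d h => ?_, ?_, ?_⟩
  · obtain ⟨i, h1, h2⟩ := c1 c d h
    exact ⟨i, h1, h2⟩
  · decide +kernel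
  · decide +kernel

end Pool.Agent.Y47.MK.CC
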